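import Pool.Agent.H33R3.Bom.Stmts
import Pool.Agent.Helper405.AreaA

set_option autoImplicit false
open Complex MeasureTheory Set Filter Topology Metric

/-! Area inequality on circles for polynomials of `G` (TaskC1 of the project H33-BOM). -/

namespace Pool.Agent.H757.Bom
open Pool.Agent.H33R3.Bom Pool.Agent.Helper405.Area

theorem taskC1 : TaskC1 := by
  intro Y hY V R hR0 hR1
  set m : ℕ := V.natDegree with hm
  set h : ℂ → ℂ := fun z => Y z / z with hh
  set P : ℂ → ℂ := fun z => ∑ j ∈ Finset.range (m + 1), V.coeff j * Y z ^ j * z ^ (m - j)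
    with hPdef
  have hPd : DifferentiableOn ℂ P (ball 0 1) := by
    apply DifferentiableOn.fun_sum
    intro j _
    exact ((hY.diff.pow j).const_mul _).mul (differentiableOn_id.pow _)
  have hd : DifferentiableOn ℂ h Dp := by
    intro z hz
    have h1 : DifferentiableWithinAt ℂ Y Dp z := (hY.diff z hz.1).mono diff_subset
    exact h1.div differentiableWithinAt_id hz.2
  have hi : InjOn h Dp := hY.inj
  have hp : Tendsto h (𝓝[≠] 0) (Bornology.cobounded ℂ) := by
    rw [← tendsto_norm_atTop_iff_cobounded]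
    have h1 : Tendsto (fun z => ‖Y z‖) (𝓝[≠] 0) (𝓝 1) := by
      have h2 : ContinuousAt Y 0 :=
        (hY.diff.continuousOn).continuousAt (isOpen_ball.mem_nhds (mem_ball_self one_pos))
      have h3 : Tendsto (fun z => ‖Y z‖) (𝓝 0) (𝓝 ‖Y 0‖) := h2.norm
      rw [hY.one, norm_one] at h3
      exact h3.mono_left nhdsWithin_le_nhds
    have h2 : Tendsto (fun z : ℂ => ‖z⁻¹‖) (𝓝[≠] 0) atTop :=
      tendsto_norm_cobounded_atTop.comp tendsto_inv₀_nhdsNE_zero
    have h3 := h1.pos_mul_atTop one_pos h2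
    refine h3.congr fun z => ?_
    simp only [hh]
    rw [div_eq_mul_inv, norm_mul]
  have hV : Differentiable ℂ (fun w => V.eval w) := V.differentiable
  have hF : ∀ z ∈ Dp, V.eval (h z) * z ^ m = P z := by
    intro z hz
    have hz0 : z ≠ 0 := hz.2
    simp only [hPdef]
    rw [Polynomial.eval_eq_sum_range, Finset.sum_mul]
    refine Finset.sum_congr rfl fun j hj => ?_
    have hj' : j ≤ m := by
      have := Finset.mem_range.mp hj
      omega
    have e : z ^ m = z ^ j * z ^ (m - j) := by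
      rw [← pow_add]
      congr 1
      omega
    rw [e]
    simp only [hh]
    rw [div_pow]
    field_simp
  set a : ℕ → ℂ := fun n => (n.factorial : ℂ)⁻¹ * iteratedDeriv n P 0 with ha_def
  have ha : ∀ z ∈ ball (0:ℂ) 1, HasSum (fun j => a j * z ^ j) (P z) := by
    intro z hz
    have h1 := Complex.hasSum_taylorSeries_on_ball hPd hz
    refine h1.congr_fun ?_ |> fun h => h
    intro n
    simp only [ha_def, smul_eq_mul, sub_zero]
    ring
  have harea := area hd hi hp hV hPd hF ha hR0 hR1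
  set Q : ℂ → ℂ := fun z => z * deriv P z - m * P z with hQ
  have hQs := hasSum_Q ha m
  have hder : ∀ z ∈ Dp, deriv (fun z => V.eval (Y z / z)) z =
      deriv (fun w => V.eval w) (h z) * deriv h z := by
    intro z hz
    have hdz := ((hd z hz).differentiableAt (isOpen_Dp.mem_nhds hz)).hasDerivAt
    have h1 : HasDerivAt (fun z => V.eval (h z)) (deriv (fun w => V.eval w) (h z) * deriv h z) z :=
      (hV (h z)).hasDerivAt.comp z hdz
    exact h1.deriv
  have hQz : ∀ z ∈ Dp, (starRingEnd ℂ) (V.eval (h z)) *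
      (z * (deriv (fun w => V.eval w) (h z) * deriv h z)) =
      (((‖z‖ ^ (2 * m) : ℝ) : ℂ))⁻¹ * ((starRingEnd ℂ) (P z) * Q z) := by
    intro z hz
    have hz0 : z ≠ 0 := hz.2
    have hdz := ((hd z hz).differentiableAt (isOpen_Dp.mem_nhds hz)).hasDerivAt
    have h1 : HasDerivAt (fun z => V.eval (h z) * z ^ m)
        (deriv (fun w => V.eval w) (h z) * deriv h z * z ^ m +
          V.eval (h z) * (m * z ^ (m - 1))) z :=
      ((hV (h z)).hasDerivAt.comp z hdz).mul (hasDerivAt_pow m z)
    have h2 : deriv P z = deriv (fun w => V.eval w) (h z) * deriv h z * z ^ m +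
        V.eval (h z) * (m * z ^ (m - 1)) := by
      rw [← h1.deriv]
      apply Filter.EventuallyEq.deriv_eq
      filter_upwards [isOpen_Dp.mem_nhds hz] with w hw
      exact (hF w hw).symm
    have h3 : Q z = z * (deriv (fun w => V.eval w) (h z) * deriv h z) * z ^ m := by
      simp only [hQ]
      rw [h2, ← hF z hz]
      rcases Nat.eq_zero_or_pos m with hm0 | hm0
      · rw [hm0]; simp
      · have : z ^ m = z * z ^ (m - 1) := by
          rw [← pow_succ', Nat.sub_add_cancel hm0]
        rw [this]; ring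
    have h4 : ((‖z‖ ^ (2 * m) : ℝ) : ℂ) = (starRingEnd ℂ) (z ^ m) * z ^ m := by
      rw [← Complex.normSq_eq_conj_mul_self, Complex.normSq_eq_norm_sq, norm_pow]
      push_cast
      ring
    rw [h3, h4, ← hF z hz, map_mul]
    have h5 : z ^ m ≠ 0 := pow_ne_zero _ hz0
    have h6 : (starRingEnd ℂ) (z ^ m) ≠ 0 := (map_ne_zero _).2 h5
    field_simp
  set S : ℝ := ∑' j : ℕ, ((j : ℝ) - m) * ‖a j‖ ^ 2 * R ^ (2 * j) with hS
  have key : ∫ θ in (0:ℝ)..(2 * Real.pi), (starRingEnd ℂ) (P (circleMap 0 R θ)) *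
      Q (circleMap 0 R θ) = ((2 * Real.pi * S : ℝ) : ℂ) := by
    have h1 := parseval hR0.le (summable_of_hasSum ha hR0.le hR1)
      (summable_of_hasSum hQs hR0.le hR1)
      (fun z hz => ha z (by rw [mem_ball_zero_iff, hz]; exact hR1))
      (fun z hz => hQs z (by rw [mem_ball_zero_iff, hz]; exact hR1))
    have h2 : (fun j : ℕ => (starRingEnd ℂ) (a j) * (((j : ℂ) - m) * a j) *
        ((R ^ (2 * j) : ℝ) : ℂ))
        = fun j : ℕ => ((((j : ℝ) - m) * ‖a j‖ ^ 2 * R ^ (2 * j) : ℝ) : ℂ) := by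
      funext j
      have h3 : ((‖a j‖ ^ 2 : ℝ) : ℂ) = (starRingEnd ℂ) (a j) * a j := by
        rw [← Complex.normSq_eq_norm_sq, Complex.normSq_eq_conj_mul_self]
      rw [ofReal_mul, ofReal_mul, h3]
      push_cast
      ring
    rw [h2] at h1
    set c : ℂ := (2 * Real.pi : ℂ)⁻¹ * ∫ θ in (0:ℝ)..(2 * Real.pi),
      (starRingEnd ℂ) (P (circleMap 0 R θ)) * Q (circleMap 0 R θ) with hc
    have hre := Complex.hasSum_re h1
    have him := Complex.hasSum_im h1
    simp only [ofReal_re, ofReal_im] at hre him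
    have him0 : c.im = 0 := him.unique hasSum_zero
    have h4 : c = ((S : ℝ) : ℂ) := by
      apply Complex.ext
      · rw [ofReal_re, hS]
        exact hre.tsum_eq.symm
      · rw [him0, ofReal_im]
    have h5 : ∫ θ in (0:ℝ)..(2 * Real.pi), (starRingEnd ℂ) (P (circleMap 0 R θ)) *
        Q (circleMap 0 R θ) = (2 * Real.pi : ℂ) * c := by
      have hpi : (Real.pi : ℂ) ≠ 0 := by exact_mod_cast Real.pi_ne_zero
      rw [hc]
      field_simp
    rw [h5, h4]
    push_cast
    ring
  have hfin : J R (fun z => V.eval (Y z / z)) (deriv fun z => V.eval (Y z / z)) =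
      (R ^ (2 * m))⁻¹ * (2 * Real.pi * S) := by
    have h1 : ∀ θ : ℝ, (starRingEnd ℂ) ((fun z => V.eval (Y z / z)) (circleMap 0 R θ)) *
        (circleMap 0 R θ * (deriv fun z => V.eval (Y z / z)) (circleMap 0 R θ)) =
        (((R ^ (2 * m) : ℝ) : ℂ))⁻¹ * ((starRingEnd ℂ) (P (circleMap 0 R θ)) *
          Q (circleMap 0 R θ)) := by
      intro θ
      have hn : ‖circleMap 0 R θ‖ = R := by simp [abs_of_pos hR0]
      have hD : circleMap 0 R θ ∈ Dp := by
        refine ⟨by rw [mem_ball_zero_iff, hn]; exact hR1, ?_⟩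
        intro h0
        rw [mem_singleton_iff] at h0
        rw [h0, norm_zero] at hn
        exact hR0.ne hn
      have h2 := hQz _ hD
      rw [hn] at h2
      rw [← h2, hder _ hD]
    unfold J
    simp only [h1]
    rw [intervalIntegral.integral_const_mul, key, ← ofReal_inv, ← ofReal_mul, ofReal_re]
  rw [hfin]
  have hπ := Real.pi_pos
  have h1 : 0 < (R ^ (2 * m))⁻¹ := by positivity
  have h2 : 2 * Real.pi * S ≤ 0 := mul_nonpos_of_nonneg_of_nonpos (by positivity) harea
  exact mul_nonpos_of_nonneg_of_nonpos h1.le h2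

end Pool.Agent.H757.Bom
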